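import Pool.Agent.H73.CBE.Stmts

set_option autoImplicit false

open Set Filter Topology

namespace Pool.CBE

theorem gsm_series (N : ℕ) :
    ∑ m ∈ Finset.range N, 1 / (1 + (m : ℝ)) ^ 2 ≤ 2 - 1 / (N : ℝ) := by
  induction N with
  | zero => simp
  | succ N ih =>
    rw [Finset.sum_range_succ]
    rcases Nat.eq_zero_or_pos N with h | h
    · subst h
      norm_num
    · have hN : (0 : ℝ) < N := by exact_mod_cast h
      have h1 : 1 / (1 + (N : ℝ)) ^ 2 ≤ 1 / (N : ℝ) - 1 / ((N : ℝ) + 1) := by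
        have h2 : 1 / (N : ℝ) - 1 / ((N : ℝ) + 1) = 1 / ((N : ℝ) * ((N : ℝ) + 1)) := by
          field_simp
          ring
        rw [h2]
        apply one_div_le_one_div_of_le (by positivity)
        nlinarith
      push_cast
      linarith

theorem GSM_thm (hPCK : PCKStmt) (hCOF : COFStmt) (hGEX : GEXStmt) : GSMStmt := by
  classical
  intro n hn
  obtain ⟨C0, hC0, hgex⟩ := hGEX (6 * n)
  refine ⟨5 ^ (2 * n) * 5 ^ (2 * n - 2) * C0 * 2, by positivity, ?_⟩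
  intro d T z hd hT hz
  have hdR : (2 : ℝ) ≤ d := by exact_mod_cast hd
  have hs : 0 < √(d : ℝ) := Real.sqrt_pos.2 (by linarith)
  have hss : √(d : ℝ) ^ 2 = d := Real.sq_sqrt (by linarith)
  set y : E n → ℝ := fun ζ => √(d : ℝ) * dl z ζ with hy
  have hdl0 : ∀ ζ : E n, 0 ≤ dl z ζ := fun ζ => norm_nonneg _
  have hy0 : ∀ ζ : E n, 0 ≤ y ζ := fun ζ => mul_nonneg hs.le (hdl0 ζ)
  have hterm : ∀ ζ ∈ T, (1 + y ζ) ^ (4 * n) * ‖(inner ℂ ζ z : ℂ)‖ ^ (d - 1) ≤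
      C0 / (1 + y ζ) ^ (2 * n) := by
    intro ζ hζ
    have h1 : 0 < 1 + y ζ := by linarith [hy0 ζ]
    have h2 := (hCOF n z ζ hz (hT.1 ζ hζ)).1 (d - 1)
    have h3 : Real.exp (-(((d - 1 : ℕ) : ℝ) * dl z ζ ^ 2) / 2) ≤ Real.exp (-(y ζ) ^ 2 / 4) := by
      apply Real.exp_le_exp.2
      have h4 : ((d - 1 : ℕ) : ℝ) = (d : ℝ) - 1 := by
        rw [Nat.cast_sub (by omega)]
        simp
      have h5 : y ζ ^ 2 = d * dl z ζ ^ 2 := by
        rw [hy]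
        simp only []
        rw [mul_pow, hss]
      rw [h4, h5]
      have h6 : 0 ≤ dl z ζ ^ 2 := sq_nonneg _
      nlinarith
    have h7 := hgex (y ζ) (hy0 ζ)
    rw [le_div_iff₀ (by positivity)]
    calc (1 + y ζ) ^ (4 * n) * ‖(inner ℂ ζ z : ℂ)‖ ^ (d - 1) * (1 + y ζ) ^ (2 * n)
        = (1 + y ζ) ^ (6 * n) * ‖(inner ℂ ζ z : ℂ)‖ ^ (d - 1) := by
          rw [show 6 * n = 4 * n + 2 * n by ring, pow_add]
          ring
      _ ≤ (1 + y ζ) ^ (6 * n) * Real.exp (-(y ζ) ^ 2 / 4) :=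
          mul_le_mul_of_nonneg_left (h2.trans h3) (by positivity)
      _ ≤ C0 := h7
  set N : ℕ := T.sup (fun ζ => ⌊y ζ⌋₊) + 1 with hN
  have hmaps : ∀ ζ ∈ T, ⌊y ζ⌋₊ ∈ Finset.range N := by
    intro ζ hζ
    rw [Finset.mem_range, hN]
    exact Nat.lt_succ_of_le (Finset.le_sup (f := fun ζ => ⌊y ζ⌋₊) hζ)
  have hfib := Finset.sum_fiberwise_of_maps_to hmaps
    (fun ζ => (1 + y ζ) ^ (4 * n) * ‖(inner ℂ ζ z : ℂ)‖ ^ (d - 1))
  rw [← hfib]
  have hm : ∀ m ∈ Finset.range N,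
      ∑ ζ ∈ T with ⌊y ζ⌋₊ = m, (1 + y ζ) ^ (4 * n) * ‖(inner ℂ ζ z : ℂ)‖ ^ (d - 1) ≤
        5 ^ (2 * n) * 5 ^ (2 * n - 2) * C0 * (1 / (1 + (m : ℝ)) ^ 2) := by
    intro m _
    have hm0 : (0 : ℝ) < 1 + (m : ℝ) := by positivity
    have hb : ∀ ζ ∈ T.filter (fun ζ => ⌊y ζ⌋₊ = m),
        (1 + y ζ) ^ (4 * n) * ‖(inner ℂ ζ z : ℂ)‖ ^ (d - 1) ≤ C0 / (1 + (m : ℝ)) ^ (2 * n) := by
      intro ζ hζ
      rw [Finset.mem_filter] at hζ
      refine (hterm ζ hζ.1).trans ?_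
      have h1 : (m : ℝ) ≤ y ζ := by
        rw [← hζ.2]
        exact Nat.floor_le (hy0 ζ)
      apply div_le_div_of_nonneg_left hC0.le (by positivity)
      exact pow_le_pow_left₀ hm0.le (by linarith) _
    have h1 := Finset.sum_le_card_nsmul _ _ _ hb
    refine h1.trans ?_
    rw [nsmul_eq_mul]
    have hsub : T.filter (fun ζ => ⌊y ζ⌋₊ = m) ⊆ near T z (((m : ℝ) + 1) / √(d : ℝ)) := by
      intro ζ hζ
      rw [Finset.mem_filter] at hζ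
      unfold near
      rw [Finset.mem_filter]
      refine ⟨hζ.1, ?_⟩
      rw [le_div_iff₀ hs]
      have h2 := Nat.lt_floor_add_one (y ζ)
      rw [hζ.2] at h2
      have h3 : y ζ = √(d : ℝ) * dl z ζ := rfl
      rw [h3] at h2
      linarith
    have hcard : ((T.filter (fun ζ => ⌊y ζ⌋₊ = m)).card : ℝ) ≤
        5 ^ (2 * n) * 5 ^ (2 * n - 2) * (1 + (m : ℝ)) ^ (2 * n - 2) := by
      have h2 : ((T.filter (fun ζ => ⌊y ζ⌋₊ = m)).card : ℝ) ≤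
          ((near T z (((m : ℝ) + 1) / √(d : ℝ))).card : ℝ) := by
        exact_mod_cast Finset.card_le_card hsub
      have h3 := hPCK n (1 / √(d : ℝ)) (((m : ℝ) + 1) / √(d : ℝ)) T z hn (by positivity)
        (by positivity) hT hz
      have h4 : 1 + 4 * (((m : ℝ) + 1) / √(d : ℝ)) / (1 / √(d : ℝ)) = 1 + 4 * ((m : ℝ) + 1) := by
        field_simp
      rw [h4] at h3
      have h5 : (1 + 4 * ((m : ℝ) + 1)) ^ (2 * n - 2) ≤ (5 * (1 + (m : ℝ))) ^ (2 * n - 2) := by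
        apply pow_le_pow_left₀ (by positivity)
        have : (0 : ℝ) ≤ m := by positivity
        linarith
      have h6 : (5 * (1 + (m : ℝ))) ^ (2 * n - 2) = 5 ^ (2 * n - 2) * (1 + (m : ℝ)) ^ (2 * n - 2) :=
        mul_pow _ _ _
      calc ((T.filter (fun ζ => ⌊y ζ⌋₊ = m)).card : ℝ)
          ≤ 5 ^ (2 * n) * (1 + 4 * ((m : ℝ) + 1)) ^ (2 * n - 2) := h2.trans h3
        _ ≤ 5 ^ (2 * n) * (5 ^ (2 * n - 2) * (1 + (m : ℝ)) ^ (2 * n - 2)) := by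
            rw [← h6]
            exact mul_le_mul_of_nonneg_left h5 (by positivity)
        _ = _ := by ring
    calc ((T.filter (fun ζ => ⌊y ζ⌋₊ = m)).card : ℝ) * (C0 / (1 + (m : ℝ)) ^ (2 * n))
        ≤ (5 ^ (2 * n) * 5 ^ (2 * n - 2) * (1 + (m : ℝ)) ^ (2 * n - 2)) *
            (C0 / (1 + (m : ℝ)) ^ (2 * n)) :=
          mul_le_mul_of_nonneg_right hcard (by positivity)
      _ = 5 ^ (2 * n) * 5 ^ (2 * n - 2) * C0 * (1 / (1 + (m : ℝ)) ^ 2) := by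
          have h7 : (1 + (m : ℝ)) ^ (2 * n) = (1 + (m : ℝ)) ^ (2 * n - 2) * (1 + (m : ℝ)) ^ 2 := by
            rw [← pow_add]
            congr 1
            omega
          rw [h7]
          field_simp
  calc ∑ m ∈ Finset.range N, ∑ ζ ∈ T with ⌊y ζ⌋₊ = m,
        (1 + y ζ) ^ (4 * n) * ‖(inner ℂ ζ z : ℂ)‖ ^ (d - 1)
      ≤ ∑ m ∈ Finset.range N, 5 ^ (2 * n) * 5 ^ (2 * n - 2) * C0 * (1 / (1 + (m : ℝ)) ^ 2) :=
        Finset.sum_le_sum hm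
    _ = 5 ^ (2 * n) * 5 ^ (2 * n - 2) * C0 * ∑ m ∈ Finset.range N, 1 / (1 + (m : ℝ)) ^ 2 := by
        rw [Finset.mul_sum]
    _ ≤ 5 ^ (2 * n) * 5 ^ (2 * n - 2) * C0 * 2 := by
        apply mul_le_mul_of_nonneg_left _ (by positivity)
        have h8 := gsm_series N
        have h9 : 0 ≤ 1 / (N : ℝ) := by positivity
        linarith

end Pool.CBE
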